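import Mathlib
import Pool.Agent.Y725.UG.Rat

/-!
# Generic cuspidal representations: the least prime with a small trace, the least tempered prime

Let `n ≥ 2` and let `Π` be a unitary cuspidal automorphic representation of `GL_n` over `ℚ` (every such `Π` is
globally generic), for instance the functorial lift of a globally generic cuspidal representation of a classical group
if this lift is cuspidal. We show: for every `ε > 0` there is a constant `A` depending only on `n` and `ε` such that for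
every such `Π` there are a prime `p ∉ S` and `k ≥ 1` with

  `p^k ≤ A C^{1+ε}` and `|α_{1,p}^k + ... + α_{n,p}^k| < 1`, `C = Q² ∏_j (1 + |κ_j|) ∏_{(p, i) ∈ T} p`,

where `Q²` is the conductor of `L(s, Π × Π~)` and `Γ_ℝ(s) ∏_j Γ_ℝ(s + κ_j)` its Gamma factor. If `n ≤ 3`, then `Π_p` is
tempered: the least prime at which `Π` is tempered is at most `A C^{1+ε}`.

Here `S` is the finite set of the primes at which `Π_p` is not a twist of an unramified representation, and `α_{i,p}`,
`p ∉ S`, are the Satake parameters (of the unramified unitary twist). At `p ∈ S` let `β_{p,i}` be the reciprocal roots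
of `L(s, Π_p × Π~_p) / ζ_p(s)`, filled up with zeros; `T` consists of pairs `(p, i)`, `p ∈ S`, with `|β_{p,i}| = 1`
such that `∑_i β_{p,i}^k`, `(p, i) ∉ T`, is nonnegative for all `k ≥ 1`. Such a `T` exists if `n ≤ 3`, and also if
`Π_p` is tempered for `p ∈ S`: the segments of maximal length with given cuspidal line contribute
`t |∑_a z_a^{k/t}|²`, `t | k`, to the power sums, the corresponding roots are units, and one removes them; what is left is
a sum of squares. (If `Π_p` contains a character which is not an unramified twist of another component, `T` may be empty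
at `p`.)

Known before: for fixed `Π`, bounds for the number of such primes (`SmallEigenvaluesAllPlaces`, `TemperedEveryScale` of
this problem); they are not uniform and say nothing about the first one. For `Π` unramified everywhere see
`MP_fa98d2_nt.LeastSmallTrace`.

The structure `CuspidalGL` lists what is used of `Π`: the unramified components are unitary; the bounds of Jacquet and
Shalika `|α_{i,p}| < p^{1/2}`, `|β_{p,i}| < p`, `Re κ_j > -1`; `L(s, Π × Π~)` is entire except for a simple pole at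
`s = 1`, of polynomial growth in vertical strips (not assumed to be uniform in `Π`), and it satisfies its functional
equation. Nothing is assumed of `L(s, Π × Π~) / ζ(s)` at the zeros of `ζ`. A factor `Γ_ℝ(s + κ_j)` with `κ_j = 0` exists
unless `Π_∞` is, for `n = 2`, in the discrete series.

The proof is the uniform version of Landau's theorem `Pool.Agent.TH949.UL.euler` for `F(s) = L(s, Π × Π~) / ζ(s)`
without the factors of `T`: if all traces are at least one up to `X`, the coefficients of `F(s) = ∑ c_m m^{-s}` with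
`m ≤ X` are nonnegative. A smoothed sum, with a nonnegative kernel whose Mellin transform vanishes at the points
`ρ + 3/2` for the zeros `ρ` of `ζ` of bounded height, is at `s = -3/2 + i t` at most what it is at `s = -3/2`, and by the
functional equation this is false for some bounded `t` if `X ≥ A C^{1+ε}`.
-/

set_option autoImplicit false

namespace Pool.Agent.Results.MP_08cfa9_nt.LeastSmallTrace

/-- the primes outside `S` -/
abbrev Unram (S : Finset Nat.Primes) := {p : Nat.Primes // p ∉ S}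

/-- `∑_{p ∉ S} ∑_{k ≥ 1} (|∑_i α_{i,p}^k|² - 1) / k · p^{-ks}`, the logarithm of `L^S(s, Π × Π~) / ζ^S(s)` -/
noncomputable def logAd {S : Finset Nat.Primes} {n : ℕ} (α : Unram S → Fin n → ℂ) (s : ℂ) : ℂ :=
  ∑' x : Unram S × ℕ, (((‖∑ i, α x.1 i ^ (x.2 + 1)‖ ^ 2 - 1) / ((x.2 : ℝ) + 1) : ℝ) : ℂ) *
    (((x.1.1 : ℕ) : ℂ) ^ (-s)) ^ (x.2 + 1)

/-- What is used of a unitary cuspidal automorphic representation `Π` of `GL_n` over `ℚ`: `α` are the Satake parameters
outside `S`, `β` the reciprocal roots of `L(s, Π_p × Π~_p) / ζ_p(s)` at `p ∈ S`, `T` the factors to be removed, `0, κ`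
the parameters of the Gamma factors and `Q²` the conductor of `L(s, Π × Π~)`. -/
structure CuspidalGL {S : Finset Nat.Primes} {n : ℕ} (α : Unram S → Fin n → ℂ)
    (β : Nat.Primes → Fin (n ^ 2 - 1) → ℂ) (T : Finset (Nat.Primes × Fin (n ^ 2 - 1)))
    (κ : Fin (n ^ 2 - 1) → ℂ) (Q : ℝ) : Prop where
  /-- the Satake parameters are nonzero -/
  ne_zero : ∀ p i, α p i ≠ 0
  /-- the unramified components are unitary -/
  unitary : ∀ p, ∃ τ : Equiv.Perm (Fin n), ∀ i, α p (τ i) = ((starRingEnd ℂ) (α p i))⁻¹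
  /-- the bound of Jacquet and Shalika -/
  bound : ∀ p i, ‖α p i‖ < ((p.1 : ℕ) : ℝ) ^ (1 / 2 : ℝ)
  /-- the same at the primes of `S` -/
  ramified : ∀ p ∈ S, ∀ i, ‖β p i‖ < ((p : ℕ) : ℝ)
  /-- the removed factors -/
  removed : ∀ x ∈ T, x.1 ∈ S ∧ ‖β x.1 x.2‖ = 1
  /-- the logarithms of the other factors at `S` have nonnegative coefficients -/
  nonneg : ∀ p ∈ S, ∀ k : ℕ, ∃ c : ℝ, 0 ≤ c ∧
    ∑ i, Set.indicator {i | (p, i) ∉ T} (fun i => β p i ^ (k + 1)) i = (c : ℂ)
  /-- the conductor -/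
  one_le : 1 ≤ Q
  /-- the component at infinity is unitary -/
  conj : Multiset.map (fun j => (starRingEnd ℂ) (κ j)) Finset.univ.val = Multiset.map κ Finset.univ.val
  /-- the bound of Jacquet and Shalika at infinity -/
  re : ∀ j, -1 < (κ j).re
  /-- a second factor `Γ_ℝ(s)`; for `n ≥ 3` there always is one -/
  zero : ∃ j, κ j = 0
  /-- `L(s, Π × Π~) = G(s) / (s - 1)`, `Ξ(s) = s (s - 1) Q^s Γ_ℝ(s) ∏_j Γ_ℝ(s + κ_j) L(s, Π × Π~)` -/
  continuation : ∃ (G Ξ : ℂ → ℂ) (ω : ℂ), Differentiable ℂ G ∧ Differentiable ℂ Ξ ∧ ‖ω‖ = 1 ∧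
    (∀ s : ℂ, 1 < s.re → G s * ∏ p ∈ S, ∏ i, (1 - β p i * ((p : ℕ) : ℂ) ^ (-s)) =
      (s - 1) * riemannZeta s * Complex.exp (logAd α s)) ∧
    (∀ a b : ℝ, ∃ C A : ℝ, ∀ s : ℂ, a ≤ s.re → s.re ≤ b → ‖G s‖ ≤ C * (1 + |s.im|) ^ A) ∧
    (∀ s : ℂ, 1 < s.re → Ξ s = s * G s * ((Q : ℂ) ^ s * Complex.Gammaℝ s * ∏ j, Complex.Gammaℝ (s + κ j))) ∧
    ∀ s : ℂ, Ξ (1 - s) = ω * Ξ s

/-- **The least small trace of a cuspidal representation of `GL_n`, and the least tempered prime for `n ≤ 3`.** -/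
theorem result {n : ℕ} (hn : 2 ≤ n) {ε : ℝ} (hε : 0 < ε) :
    ∃ A : ℝ, 0 < A ∧ ∀ (S : Finset Nat.Primes) (α : Unram S → Fin n → ℂ) (β : Nat.Primes → Fin (n ^ 2 - 1) → ℂ)
      (T : Finset (Nat.Primes × Fin (n ^ 2 - 1))) (κ : Fin (n ^ 2 - 1) → ℂ) (Q : ℝ), CuspidalGL α β T κ Q →
      ∃ (p : Unram S) (k : ℕ), 1 ≤ k ∧
        ((p.1 : ℕ) : ℝ) ^ k ≤ A * (Q ^ 2 * (∏ j, (1 + ‖κ j‖)) * ∏ x ∈ T, ((x.1 : ℕ) : ℝ)) ^ (1 + ε) ∧
        ‖∑ i, α p i ^ k‖ < 1 ∧ (n ≤ 3 → ∀ i, ‖α p i‖ = 1) := by
  obtain ⟨A, hA0, hA⟩ := Pool.Agent.Y725.UG.rat_least n (n ^ 2 - 1) (n ^ 2 - 1) hε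
  refine ⟨A, hA0, fun S α β T κ Q h => ?_⟩
  obtain ⟨p, k, hk, hle, hlt⟩ := hA S α β T κ Q
    ⟨h.bound, h.ramified, h.removed, h.nonneg, h.one_le, h.conj, h.re, h.zero, h.continuation⟩
  exact ⟨p, k, hk, hle, hlt, fun hn3 =>
    Pool.Agent.TH949.UL.temp_of_pow hn3 (h.ne_zero p) (h.unitary p) hk hlt hn⟩

end Pool.Agent.Results.MP_08cfa9_nt.LeastSmallTrace
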