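import Mathlib
import Pool.Agent.Y754.NF.Key
import Pool.Agent.Y754.NF.Alg

/-!
# Bounds towards Ramanujan from algebraic integrality, number fields of any degree

Let `K` be a number field of any degree `d` which does not contain `√5`, and let `π_σ`, `σ : K → ℂ`, be unitary cuspidal
automorphic representations of `GL_2` over `ℚ` (they are globally generic), of any level, central character and type
at infinity, not of dihedral, tetrahedral or octahedral type. Let `S` be a finite set of primes such that all `π_σ` are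
unramified outside `S`, with Satake parameters `a_σ(p), b_σ(p)` and Hecke eigenvalues `λ_σ(p)`. We suppose that they are
conjugate in the following sense: for most primes `p` there is an algebraic integer `y_p` in `K` with
`|λ_σ(p)|² = σ(y_p)` for all `σ`.

* (1) If this holds for all primes outside a set with at most `C X^c` elements up to `X`, then `c ≥ 1/2` and **every**
  local component of every `π_σ` (also at the exceptional primes, at the primes of `S` and at the real place) has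
  exponent at most `c/8`. For `c < 7/8` this is better than the bound `7/64` of Kim and Sarnak.
* (2) For every `c < 1/2` and all large `X` there are at least `X^c` primes `p ≤ X` without such a `y_p`.
* (3) If some local component has an exponent `> c/8`, where `c ≥ 1/2`, and `δ > 0`, then for all large `X` there are at
  least `X^c` primes `p` in `[X^{1-δ}, X]` without such a `y_p`, and with `∑_σ (Y² - 3 Y + 1)² < d`, `Y = |λ_σ(p)|²`.

An exponent `θ` of a component `π_v` gives a real pole at `8 θ` of the local factor of `L(s, Π × Π~)`, `Π = A⁴(π)`. The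
data of `Π` are as in `MP_a812b2_nt.NumberFieldSquares`, which treats the Laplace eigenvalues of Maass forms.

The proof: the traces of the powers of the Satake parameters of `Π_σ = A⁴(π_σ) = Sym⁴(π_σ) ⊗ ω⁻²` on `GL_5` at `p` are
`t_σ = w_σ² + w_σ - 1`, where `w_σ = σ(w)` for an algebraic integer `w` in `K`. As `4 (w² + w - 1) = (2 w + 1)² - 5` is
not zero, its norm is a nonzero integer, and so `∑_σ |t_σ|² ≥ d`. On the other hand we show that for any `d` cuspidal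
representations the sum of the squared traces is less than `d` at many prime powers, at every scale: this follows from
the singularities of `∏_σ L(s, Π_σ × Π_σ~) / ζ(s)`, by the explicit formula with a Gaussian weight of
`Pool.Agent.TH949.TX`.
-/

set_option autoImplicit false

namespace Pool.Agent.Results.MP_08cfa9_nt.NumberFieldRamanujan

open Filter NumberField

/-- the primes outside the finite set `S` -/
abbrev Unram (S : Finset Nat.Primes) := {p : Nat.Primes // p ∉ S}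

/-- the Satake parameters of the lift `Π = A⁴(π) = Sym⁴(π) ⊗ ω⁻²` if `π` has the Satake parameters `a, b` -/
noncomputable def fourth (a b : ℂ) : Fin 5 → ℂ := ![(a / b) ^ 2, a / b, 1, b / a, (b / a) ^ 2]

/-- the trace `∑_i γ_i^k` of the `k`-th power of the Satake parameters of `Π` -/
noncomputable def tr (a b : ℂ) (k : ℕ) : ℂ := ∑ i, fourth a b i ^ k

/-- `log L^S(s, Π × Π~) = ∑_{p ∉ S} ∑_{k ≥ 1} |tr Π_p^k|² / (k p^{ks})` -/
noncomputable def logL {S : Finset Nat.Primes} (a b : Unram S → ℂ) (s : ℂ) : ℂ :=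
  ∑' x : Unram S × ℕ, ((‖tr (a x.1) (b x.1) (x.2 + 1)‖ ^ 2 / ((x.2 : ℝ) + 1) : ℝ) : ℂ) *
    (((x.1.1 : ℕ) : ℂ) ^ (-s)) ^ (x.2 + 1)

/-- The properties of the Rankin-Selberg `L`-function `L(s, Π × Π~)` of a cuspidal `Π = A⁴(π)` on `GL_5` over `ℚ`
which are used: `β p` are the reciprocal roots of the Euler factors at the primes of `S`, and `0, κ` are the
parameters of the 25 Gamma factors. -/
structure CuspidalLift {S : Finset Nat.Primes} (a b : Unram S → ℂ) (β : Nat.Primes → Fin (5 ^ 2) → ℂ) (κ : Fin (5 ^ 2 - 1) → ℂ) :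
    Prop where
  /-- `Π × Π~` is Hermitian at the real place -/
  conj : Multiset.map (fun j => (starRingEnd ℂ) (κ j)) Finset.univ.val = Multiset.map κ Finset.univ.val
  /-- absolute convergence for `Re s > 1` -/
  summable : ∀ σ : ℝ, 1 < σ → Summable fun x : Unram S × ℕ =>
    ‖tr (a x.1) (b x.1) (x.2 + 1)‖ ^ 2 / ((x.2 : ℝ) + 1) * (((x.1.1 : ℕ) : ℝ) ^ (-σ)) ^ (x.2 + 1)
  /-- `L(s, Π × Π~) = G(s) / (s - 1)` with `G` entire of polynomial growth in vertical strips, and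
  `Ξ(s) = s (s - 1) Q^s Γ_ℝ(s) ∏_j Γ_ℝ(s + κ_j) L(s, Π × Π~)` is entire and satisfies the functional equation -/
  continuation : ∃ (G Ξ : ℂ → ℂ) (Q : ℝ) (ω : ℂ), Differentiable ℂ G ∧ Differentiable ℂ Ξ ∧ 0 < Q ∧ ω ≠ 0 ∧
    (∀ s : ℂ, 1 < s.re → G s * ∏ p ∈ S, ∏ i, (1 - β p i * ((p : ℕ) : ℂ) ^ (-s)) =
      (s - 1) * Complex.exp (logL a b s)) ∧
    (∀ u v : ℝ, ∃ C A : ℝ, ∀ s : ℂ, u ≤ s.re → s.re ≤ v → ‖G s‖ ≤ C * (1 + |s.im|) ^ A) ∧
    (∀ s : ℂ, 1 < s.re → Ξ s = s * G s * ((Q : ℂ) ^ s * Complex.Gammaℝ s * ∏ j, Complex.Gammaℝ (s + κ j))) ∧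
    ∀ s : ℂ, Ξ (1 - s) = ω * Ξ s

/-- What is used of the cuspidal representations `π_σ` of `GL_2` over `ℚ`, indexed by the embeddings `σ` of `K`, with
Satake parameters `a σ p`, `b σ p` at the primes outside `S`: the lifts `Π_σ` are cuspidal; `β σ p` are the reciprocal
roots of the local factor of `L(s, Π_σ × Π_σ~)` at `p ∈ S`, and `0, κ σ` are the parameters of its Gamma factors. -/
structure Family {K : Type} [Field K] [NumberField K] {S : Finset Nat.Primes} (a b : (K →+* ℂ) → Unram S → ℂ)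
    (β : (K →+* ℂ) → Nat.Primes → Fin (5 ^ 2) → ℂ) (κ : (K →+* ℂ) → Fin (5 ^ 2 - 1) → ℂ) : Prop where
  /-- the Satake parameters are nonzero -/
  ne_zero : ∀ σ p, a σ p ≠ 0 ∧ b σ p ≠ 0
  /-- the components are unitary: complex conjugation induces `{a, b} → {1/a, 1/b}` -/
  unitary : ∀ σ p, ((starRingEnd ℂ) (a σ p) = (a σ p)⁻¹ ∧ (starRingEnd ℂ) (b σ p) = (b σ p)⁻¹) ∨
    ((starRingEnd ℂ) (a σ p) = (b σ p)⁻¹ ∧ (starRingEnd ℂ) (b σ p) = (a σ p)⁻¹)
  /-- the lifts are cuspidal -/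
  lift : ∀ σ, CuspidalLift (a σ) (b σ) (β σ) (κ σ)

/-- some local component of some `π_σ` has an exponent greater than `c / 8`: at a prime outside `S`, or
a real pole `x > c` of the local factor of `L(s, Π_σ × Π_σ~)` at a prime of `S` or at the real place -/
def Violation {K : Type} [Field K] [NumberField K] {S : Finset Nat.Primes} (a : (K →+* ℂ) → Unram S → ℂ)
    (β : (K →+* ℂ) → Nat.Primes → Fin (5 ^ 2) → ℂ) (κ : (K →+* ℂ) → Fin (5 ^ 2 - 1) → ℂ) (c : ℝ) : Prop :=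
  (∃ (σ : K →+* ℂ) (p : Unram S), c < 8 * |Real.logb ((p.1 : ℕ) : ℝ) ‖a σ p‖|) ∨
  (∃ (σ : K →+* ℂ), ∃ p ∈ S, ∃ (i : Fin (5 ^ 2)) (x : ℝ), β σ p i = ((p : ℕ) : ℂ) ^ (x : ℂ) ∧ c < x) ∨
  (∃ (σ : K →+* ℂ) (j : Fin (5 ^ 2 - 1)) (x : ℝ), κ σ j = -(x : ℂ) ∧ c < x)

/-- there is an algebraic integer `y` in `K` with `|λ_σ(p)|² = σ(y)` for all embeddings `σ` of `K` -/
def Integral {K : Type} [Field K] [NumberField K] {S : Finset Nat.Primes} (a b : (K →+* ℂ) → Unram S → ℂ)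
    (p : Unram S) : Prop :=
  ∃ y : 𝓞 K, ∀ σ : K →+* ℂ, ((‖a σ p + b σ p‖ ^ 2 : ℝ) : ℂ) = σ (y : K)

/-- the number of the primes `p ≤ X` outside `S` with the property `E` -/
noncomputable def count {S : Finset Nat.Primes} (E : Unram S → Prop) (X : ℝ) : ℕ :=
  {p : Unram S | ((p.1 : ℕ) : ℝ) ≤ X ∧ E p}.ncard

theorem toRep {S : Finset Nat.Primes} {a b : Unram S → ℂ} {β : Nat.Primes → Fin (5 ^ 2) → ℂ} {κ : Fin (5 ^ 2 - 1) → ℂ}
    (h0 : ∀ p, a p ≠ 0 ∧ b p ≠ 0)
    (hU : ∀ p, ((starRingEnd ℂ) (a p) = (a p)⁻¹ ∧ (starRingEnd ℂ) (b p) = (b p)⁻¹) ∨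
      ((starRingEnd ℂ) (a p) = (b p)⁻¹ ∧ (starRingEnd ℂ) (b p) = (a p)⁻¹))
    (h : CuspidalLift a b β κ) :
    Pool.Agent.TH949.RES.CuspidalRep (n := 5) S (fun p => Pool.Agent.Y725.SE.fourth (a p) (b p)) β κ where
  ne_zero := by
    intro p i
    obtain ⟨ha, hb⟩ := h0 p
    fin_cases i <;> simp [Pool.Agent.Y725.SE.fourth, ha, hb]
  unitary := by
    intro p
    obtain ⟨ha, hb⟩ := h0 p
    rcases hU p with ⟨h1, h2⟩ | ⟨h1, h2⟩
    · refine ⟨Equiv.refl _, fun i => ?_⟩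
      fin_cases i <;> simp [Pool.Agent.Y725.SE.fourth, h1, h2] <;> field_simp
    · refine ⟨Fin.revPerm, fun i => ?_⟩
      fin_cases i <;> simp [Pool.Agent.Y725.SE.fourth, h1, h2, Fin.rev, Fin.revPerm] <;> field_simp
  conj := h.conj
  summable := h.summable
  continuation := h.continuation

variable {K : Type} [Field K] [NumberField K] {S : Finset Nat.Primes} {a b : (K →+* ℂ) → Unram S → ℂ}

/-- the exponents of `Π` -/
theorem logb_fourth {p : ℕ} (hp : 1 < p) {x y : ℂ} (hx : x ≠ 0) (hy : y ≠ 0)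
    (h : ((starRingEnd ℂ) x = x⁻¹ ∧ (starRingEnd ℂ) y = y⁻¹) ∨ ((starRingEnd ℂ) x = y⁻¹ ∧ (starRingEnd ℂ) y = x⁻¹)) :
    Real.logb (p : ℝ) ‖(x / y) ^ 2‖ = 4 * Real.logb (p : ℝ) ‖x‖ := by
  have hx' : 0 < ‖x‖ := norm_pos_iff.2 hx
  have hy' : 0 < ‖y‖ := norm_pos_iff.2 hy
  have h1 : Real.logb (p : ℝ) ‖y‖ = -Real.logb (p : ℝ) ‖x‖ := by
    rcases h with ⟨h1, h2⟩ | ⟨h1, h2⟩
    · have e1 : ‖x‖ = ‖x‖⁻¹ := by
        rw [← norm_inv, ← h1, RCLike.norm_conj]
      have e2 : ‖y‖ = ‖y‖⁻¹ := by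
        rw [← norm_inv, ← h2, RCLike.norm_conj]
      have e3 : Real.logb (p : ℝ) ‖x‖ = 0 := by
        have := congrArg (Real.logb (p : ℝ)) e1
        rw [Real.logb_inv] at this
        linarith
      have e4 : Real.logb (p : ℝ) ‖y‖ = 0 := by
        have := congrArg (Real.logb (p : ℝ)) e2
        rw [Real.logb_inv] at this
        linarith
      rw [e3, e4, neg_zero]
    · have e1 : ‖x‖ = ‖y‖⁻¹ := by
        rw [← norm_inv, ← h1, RCLike.norm_conj]
      rw [e1, Real.logb_inv, neg_neg]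
  rw [norm_pow, norm_div, Real.logb_pow, Real.logb_div hx'.ne' hy'.ne', h1]
  ring

/-- the exponents which are admissible for the theorem on several cuspidal representations -/
theorem adm {β : (K →+* ℂ) → Nat.Primes → Fin (5 ^ 2) → ℂ} {κ : (K →+* ℂ) → Fin (5 ^ 2 - 1) → ℂ}
    (h : Family a b β κ) {r : ℕ} (e : (K →+* ℂ) ≃ Fin r) {c : ℝ} (hc : c < 1 / 2 ∨ Violation a β κ c) :
    Pool.Agent.Y754.NF.TAdm (n := 5) S
      (fun i p => Pool.Agent.Y725.SE.fourth (a (e.symm i) p) (b (e.symm i) p))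
      (fun i => β (e.symm i)) (fun i => κ (e.symm i)) c := by
  rcases hc with hc | ⟨σ, p, hp⟩ | ⟨σ, p, hp, i, x, hx, hcx⟩ | ⟨σ, j, x, hx, hcx⟩
  · exact Or.inl hc
  · refine Or.inr (Or.inl ⟨e σ, p, 0, ?_⟩)
    simp only [Equiv.symm_apply_apply]
    have e1 : Pool.Agent.Y725.SE.fourth (a σ p) (b σ p) 0 = (a σ p / b σ p) ^ 2 := rfl
    rw [e1, logb_fourth p.1.2.one_lt (h.ne_zero σ p).1 (h.ne_zero σ p).2 (h.unitary σ p), abs_mul]
    rw [abs_of_pos (by norm_num : (0 : ℝ) < 4)]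
    linarith
  · exact Or.inr (Or.inr (Or.inl ⟨e σ, p, hp, i, x, by simpa using hx, hcx⟩))
  · exact Or.inr (Or.inr (Or.inr ⟨e σ, j, x, by simpa using hx, hcx⟩))

/-- many primes are not integral -/
theorem many (h5 : ¬ IsSquare (5 : K)) {β : (K →+* ℂ) → Nat.Primes → Fin (5 ^ 2) → ℂ}
    {κ : (K →+* ℂ) → Fin (5 ^ 2 - 1) → ℂ} (h : Family a b β κ) {c : ℝ} (hc : c < 1 / 2 ∨ Violation a β κ c) :
    ∀ᶠ X : ℝ in atTop, X ^ c ≤ (count (fun p : Unram S => ¬ Integral a b p) X : ℝ) := by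
  classical
  obtain ⟨r, hr⟩ : ∃ r, r = Fintype.card (K →+* ℂ) := ⟨_, rfl⟩
  have hr1 : 1 ≤ r := by
    rw [hr, Nat.succ_le_iff, Fintype.card_pos_iff]
    infer_instance
  let e : (K →+* ℂ) ≃ Fin r := Fintype.equivFinOfCardEq hr.symm
  refine Pool.Agent.Y754.NF.tuple_count (n := 5) (by norm_num) hr1
    (α := fun i p => Pool.Agent.Y725.SE.fourth (a (e.symm i) p) (b (e.symm i) p))
    (β := fun i => β (e.symm i)) (κ := fun i => κ (e.symm i))
    (fun i => toRep (h.ne_zero (e.symm i)) (h.unitary (e.symm i)) (h.lift (e.symm i))) (adm h e hc) ?_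
  rintro p k hk ⟨y, hy⟩
  have h1 := Pool.Agent.Y754.NF.big_sum h5 (a := fun σ => a σ p) (b := fun σ => b σ p) (fun σ => h.ne_zero σ p)
    (fun σ => h.unitary σ p) hy (k + 1)
  have h2 : ∑ i : Fin r, ‖∑ j, Pool.Agent.Y725.SE.fourth (a (e.symm i) p) (b (e.symm i) p) j ^ (k + 1)‖ ^ 2 =
      ∑ σ : K →+* ℂ, ‖∑ j, Pool.Agent.Y725.SE.fourth (a σ p) (b σ p) j ^ (k + 1)‖ ^ 2 :=
    Equiv.sum_comp e.symm (fun σ => ‖∑ j, Pool.Agent.Y725.SE.fourth (a σ p) (b σ p) j ^ (k + 1)‖ ^ 2)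
  rw [h2, hr] at hk
  exact absurd hk (not_lt.2 h1)

/-- the trace is the polynomial in `|λ(p)|²` -/
theorem trace_eq {x y : ℂ} (hx : x ≠ 0) (hy : y ≠ 0) (h : Pool.Agent.Y725.SE.Unit2 x y) :
    ‖∑ j, Pool.Agent.Y725.SE.fourth x y j‖ ^ 2 = ((‖x + y‖ ^ 2) ^ 2 - 3 * ‖x + y‖ ^ 2 + 1) ^ 2 := by
  have h1 := Pool.Agent.Y725.SE.sum_fourth hx hy 1
  simp only [pow_one] at h1
  have h2 := Pool.Agent.Y725.SE.norm_sq_eq hx hy h
  have h3 : Pool.Agent.Y725.SE.ww (x / y) 1 = ((‖x + y‖ ^ 2 - 2 : ℝ) : ℂ) := by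
    push_cast at h2 ⊢
    linear_combination -h2
  rw [h1, h3]
  have h4 : (((‖x + y‖ ^ 2 - 2 : ℝ) : ℂ)) ^ 2 + ((‖x + y‖ ^ 2 - 2 : ℝ) : ℂ) - 1 =
      (((‖x + y‖ ^ 2) ^ 2 - 3 * ‖x + y‖ ^ 2 + 1 : ℝ) : ℂ) := by
    push_cast
    ring
  rw [h4, Complex.norm_real, Real.norm_eq_abs, sq_abs]

/-- a power of `X` is not bounded by a smaller one -/
theorem absurd_pow {f : ℝ → ℝ} {c c' C : ℝ} (hcc : c < c') (h1 : ∀ᶠ X : ℝ in atTop, X ^ c' ≤ f X)
    (h2 : ∀ X : ℝ, 1 ≤ X → f X ≤ C * X ^ c) : False := by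
  have h3 : Tendsto (fun X : ℝ => X ^ (c' - c)) atTop atTop := tendsto_rpow_atTop (by linarith)
  obtain ⟨X, k1, k2, k3⟩ := (h1.and ((h3.eventually_gt_atTop C).and (eventually_ge_atTop 1))).exists
  have hX : 0 < X := by linarith
  have k4 := k1.trans (h2 X k3)
  have k5 : X ^ c' = X ^ (c' - c) * X ^ c := by
    rw [← Real.rpow_add hX]
    congr 1
    ring
  rw [k5] at k4
  have k6 : 0 < X ^ c := by positivity
  have := le_of_mul_le_mul_right k4 k6
  linarith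

/-- a violation for `c` is one for a slightly larger exponent -/
theorem larger {β : (K →+* ℂ) → Nat.Primes → Fin (5 ^ 2) → ℂ} {κ : (K →+* ℂ) → Fin (5 ^ 2 - 1) → ℂ} {c : ℝ}
    (h : Violation a β κ c) : ∃ c', c < c' ∧ Violation a β κ c' := by
  rcases h with ⟨σ, p, hp⟩ | ⟨σ, p, hp, i, x, hx, hcx⟩ | ⟨σ, j, x, hx, hcx⟩
  · exact ⟨(c + 8 * |Real.logb ((p.1 : ℕ) : ℝ) ‖a σ p‖|) / 2, by linarith, Or.inl ⟨σ, p, by linarith⟩⟩
  · exact ⟨(c + x) / 2, by linarith, Or.inr (Or.inl ⟨σ, p, hp, i, x, hx, by linarith⟩)⟩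
  · exact ⟨(c + x) / 2, by linarith, Or.inr (Or.inr ⟨σ, j, x, hx, by linarith⟩)⟩

/-- **Bounds towards Ramanujan for conjugate families of cuspidal representations of `GL_2`** whose squared Hecke
eigenvalues are algebraic integers of a number field without `√5`.

1. If `|λ_σ(p)|² = σ(y_p)` with algebraic integers `y_p` in `K` for all but at most `C X^c` primes `p ≤ X`, then
`c ≥ 1/2` and all exponents of all local components are at most `c/8`.
2. For every `c < 1/2` and all large `X` there are at least `X^c` primes `p ≤ X` without such a `y_p`.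
3. If some exponent is greater than `c/8`, `c ≥ 1/2`, and `δ > 0`, then for all large `X` there are at least `X^c`
primes `p` in `[X^{1-δ}, X]` without such a `y_p`, with a small sum of squares of `Y² - 3 Y + 1`, `Y = |λ_σ(p)|²`. -/
theorem result (h5 : ¬ IsSquare (5 : K)) {β : (K →+* ℂ) → Nat.Primes → Fin (5 ^ 2) → ℂ}
    {κ : (K →+* ℂ) → Fin (5 ^ 2 - 1) → ℂ} (h : Family a b β κ) :
    (∀ c C : ℝ, (∀ X : ℝ, 1 ≤ X → (count (fun p : Unram S => ¬ Integral a b p) X : ℝ) ≤ C * X ^ c) →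
      1 / 2 ≤ c ∧ ¬ Violation a β κ c) ∧
    (∀ c : ℝ, c < 1 / 2 → ∃ X₀ : ℝ, ∀ X : ℝ, X₀ ≤ X →
      X ^ c ≤ (count (fun p : Unram S => ¬ Integral a b p) X : ℝ)) ∧
    (∀ c δ : ℝ, 1 / 2 ≤ c → Violation a β κ c → 0 < δ → ∃ X₀ : ℝ, ∀ X : ℝ, X₀ ≤ X →
      X ^ c ≤ (count (fun p : Unram S => X ^ (1 - δ) ≤ ((p.1 : ℕ) : ℝ) ∧ ¬ Integral a b p ∧
        ∑ σ : K →+* ℂ, ((‖a σ p + b σ p‖ ^ 2) ^ 2 - 3 * ‖a σ p + b σ p‖ ^ 2 + 1) ^ 2 <
          (Module.finrank ℚ K : ℝ)) X : ℝ)) := by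
  classical
  refine ⟨fun c C hcount => ⟨?_, fun hv => ?_⟩, fun c hc => ?_, fun c δ hc hv hδ => ?_⟩
  · by_contra hl
    push Not at hl
    exact absurd_pow (show c < (c + 1 / 2) / 2 by linarith) (many h5 h (Or.inl (by linarith))) hcount
  · obtain ⟨c', hcc, hv'⟩ := larger hv
    exact absurd_pow hcc (many h5 h (Or.inr hv')) hcount
  · exact eventually_atTop.1 (many h5 h (Or.inl hc))
  · obtain ⟨r, hr⟩ : ∃ r, r = Fintype.card (K →+* ℂ) := ⟨_, rfl⟩
    have hr1 : 1 ≤ r := by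
      rw [hr, Nat.succ_le_iff, Fintype.card_pos_iff]
      infer_instance
    have hd : (r : ℝ) = Module.finrank ℚ K := by
      rw [hr, NumberField.Embeddings.card K ℂ]
    let e : (K →+* ℂ) ≃ Fin r := Fintype.equivFinOfCardEq hr.symm
    have key := Pool.Agent.Y754.NF.tuple_window (n := 5) (by norm_num) hr1
      (α := fun i p => Pool.Agent.Y725.SE.fourth (a (e.symm i) p) (b (e.symm i) p))
      (β := fun i => β (e.symm i)) (κ := fun i => κ (e.symm i))
      (fun i => toRep (h.ne_zero (e.symm i)) (h.unitary (e.symm i)) (h.lift (e.symm i))) (adm h e (Or.inr hv)) hc hδ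
      (E := fun p : Unram S => ¬ Integral a b p ∧
        ∑ σ : K →+* ℂ, ((‖a σ p + b σ p‖ ^ 2) ^ 2 - 3 * ‖a σ p + b σ p‖ ^ 2 + 1) ^ 2 < (Module.finrank ℚ K : ℝ))
      (fun p hp => by
        have h2 : ∑ i : Fin r, ‖∑ j, Pool.Agent.Y725.SE.fourth (a (e.symm i) p) (b (e.symm i) p) j‖ ^ 2 =
            ∑ σ : K →+* ℂ, ‖∑ j, Pool.Agent.Y725.SE.fourth (a σ p) (b σ p) j‖ ^ 2 :=
          Equiv.sum_comp e.symm (fun σ => ‖∑ j, Pool.Agent.Y725.SE.fourth (a σ p) (b σ p) j‖ ^ 2)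
        rw [h2] at hp
        constructor
        · rintro ⟨y, hy⟩
          have h1 := Pool.Agent.Y754.NF.big_sum h5 (a := fun σ => a σ p) (b := fun σ => b σ p)
            (fun σ => h.ne_zero σ p) (fun σ => h.unitary σ p) hy 1
          simp only [pow_one] at h1
          rw [← hr] at h1
          exact absurd hp (not_lt.2 h1)
        · rw [← hd]
          refine lt_of_eq_of_lt (Finset.sum_congr rfl fun σ _ => ?_) hp
          exact (trace_eq (h.ne_zero σ p).1 (h.ne_zero σ p).2 (h.unitary σ p)).symm)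
    obtain ⟨X₀, hX₀⟩ := eventually_atTop.1 key
    refine ⟨X₀, fun X hX => (hX₀ X hX).trans (le_of_eq ?_)⟩
    unfold count
    congr 2
    ext p
    simp only [Set.mem_ofPred_eq]
    tauto

end Pool.Agent.Results.MP_08cfa9_nt.NumberFieldRamanujan
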