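import Mathlib
import Pool.Agent.Y82.GL.Gen
import Pool.Agent.TH949.UL.DQ

/-!
# Ramanujan for `GL(2)` over number fields: the least tempered place with a condition on the Frobenius class

Let `π` be a unitary cuspidal automorphic representation of `GL_2` over a number field `K`, not dihedral, of arbitrary
conductor and central character, let `L / K` be a finite Galois extension with the group `G`, and `D ⊆ G - {1}`. We look
for the least place `v` of `K` at which `π_v` is tempered and the Frobenius class of `L / K` is in `D`. Let `ρ` and `τ`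
be representations of `G` of degrees `d` and `e` with characters `r` and `t` such that

  `0 ≤ t(g) ≤ r(g)` if `g ∉ D`, and `0 ≤ t(g)`, `-3 t(g) ≤ r(g)` if `g ∈ D`,           (*)

and such that the function `L(s, ρ) L(s, Ad π × τ)` is entire with the usual functional equation. We show: for every
`ε > 0` there are a place `v` and a `k ≥ 1` with

  `π_v` tempered, `Frob_v^k ∈ D`, `(N v)^k ≤ A C^{1+ε}`,

where `C` is the analytic conductor of the function (with the norms of the removed places of `S`, see below), and `A`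
depends only on `K`, `d`, `e` and `ε`. Examples in which the hypothesis is known:

* `D = G - {1}`, `L ≠ K` arbitrary: `v` does not split completely in `L`. Take `ρ = ℂ[G] - 1`, `τ = 1`. The function
  `L(s, ρ) = ζ_L(s) / ζ_K(s)` is entire by the theorem of Aramata and Brauer, `L(s, Ad π)` by Gelbart and Jacquet.
  So `(N v)^k ≤ A (C(L/K) C(Ad π))^{1+ε}`, up to the norms of the places of `S`.
* `G` abelian, `D` the set of the generators of `⟨h⟩`, `h ≠ 1`: the group generated by `Frob_v^k` is `⟨h⟩`. Let `n` be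
  the order of `h` and take for `ρ` the sum of the characters `χ` of `G` with the multiplicities
  `φ(n) - ∑_{g ∈ D} χ(g)` and for `τ` the one with the multiplicities `φ(n) + ∑_{g ∈ D} χ(g)`; they are nonnegative
  integers, `r(1) = t(1) = |G| φ(n)`, `-r(g) = t(g) = |G|` for `g ∈ D`, and `r(g) = t(g) = 0` otherwise. The trivial
  character does not occur in `ρ`, and `L(s, Ad π × χ)` is entire. For `K = ℚ`, `L = ℚ(ζ_q)` this is a theorem on
  tempered primes in arithmetic progressions. If `L / K` is cyclic and `h` a generator, then `v` is inert in `L`.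
* `G` arbitrary, `D` the set of the conjugates of the generators of `⟨h⟩`, `h ≠ 1`: take the representations of `G`
  induced by those of the last example for the group `⟨h⟩`. Then `L(s, ρ)` is a product of Hecke `L`-functions, and
  `L(s, Ad π × τ)` is known to be entire if the irreducible components of `τ` are automorphic and not isomorphic to
  `Ad π` (Jacquet, Piatetski-Shapiro and Shalika), for example for nilpotent `G` (Arthur and Clozel).

If `⟨h⟩` is a maximal cyclic subgroup in the last two examples, then `Frob_v` itself is in `D`.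

The bound is uniform in `π` and in `L`. Known before: for fixed `π` the tempered places have density at least `34/35`
(Kim and Shahidi), so Chebotarev's density theorem alone gives a tempered place with the Frobenius class in `D` only if
`D` has more than `|G| / 35` elements; and a uniform bound for the least tempered place, without a condition on the
Frobenius class (`MP_8410ab_nt.LeastTemperedPlace`).

The proof: if `g = Frob_v^k ∉ D` or if `π_v` is not tempered, then `r(g) + t(g) (|tr|² - 1) ≥ 0` for the trace `tr` of the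
`k`-th power of the Satake parameter, as `|tr| ≥ 2` in the second case. So if there is no such place, then the
logarithm of the `L`-function has nonnegative coefficients up to `X`. By a uniform version of Landau's theorem, see
`Pool.Agent.TH949.UL`, this contradicts the functional equation.

Notes on the data `CuspidalGalois`. `S` is a finite set of places of `K`, containing those ramified in `L` and those at
which `π_v` is not a twist of an unramified representation. For `v ∉ S` let `a v`, `b v` be the Satake parameters (of the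
unramified unitary twist of `π_v`) and `frob v` the Frobenius automorphism of a place of `L` above `v`. At `v ∈ S` the
`β v i` are the reciprocal roots of the local factor, filled up with zeros; `T` is the set of the pairs `(v, i)`,
`v ∈ S`, for which the factor is removed. One can take all pairs with `|β v i| = 1`: the other roots are `0`, or
`γ / N v` if `π_v` is special, or `x^{±2} γ`, `x > 1`, if `π_v` is not tempered, where `γ` runs through the Frobenius
eigenvalues on the inertia invariants of `τ`, and the sums of the powers of these are mean values of `t ≥ 0`. The product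
over `T` is at most the one of the `(N v)^{d + 3 e}`, `v ∈ S`. A factor `Γ_ℝ(s)`, that is `κ j = 0`, occurs if `K` has a
complex place, or in the first example if `|G| > 2`, or if `τ` contains the trivial representation, as in all the
examples, and `π` has a principal series component at a real place.
-/

set_option autoImplicit false

namespace Pool.Agent.Results.MP_08cfa9_nt.TemperedChebotarev

open NumberField IsDedekindDomain

/-- the finite places of `K` outside `S` -/
abbrev Places {K : Type} [Field K] [NumberField K] (S : Finset (HeightOneSpectrum (𝓞 K))) :=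
  {v : HeightOneSpectrum (𝓞 K) // v ∉ S}

/-- the norm of a finite place -/
noncomputable def Nm {K : Type} [Field K] [NumberField K] (v : HeightOneSpectrum (𝓞 K)) : ℕ :=
  Ideal.absNorm v.asIdeal

/-- `σ` is a Frobenius automorphism of a place `w` of `L` above `v` -/
def IsFrob {K L : Type} [Field K] [NumberField K] [Field L] [NumberField L] [Algebra K L]
    (v : HeightOneSpectrum (𝓞 K)) (σ : L ≃ₐ[K] L) : Prop :=
  ∃ w : HeightOneSpectrum (𝓞 L), w.asIdeal.comap (algebraMap (𝓞 K) (𝓞 L)) = v.asIdeal ∧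
    ∀ x y : 𝓞 L, (y : L) = σ (x : L) → y - x ^ Nm v ∈ w.asIdeal

/-- What is used of `π` and of the representations `ρ` and `τ` of `Gal(L / K)` with the characters `r` and `t`; `M` is the
degree of `L(s, ρ) L(s, Ad π × τ)`, `κ` are the parameters of the Gamma factors and `Q²` is the conductor. -/
structure CuspidalGalois {K L : Type} [Field K] [NumberField K] [Field L] [NumberField L] [Algebra K L]
    {S : Finset (HeightOneSpectrum (𝓞 K))} {M : ℕ} (r t : (L ≃ₐ[K] L) → ℝ) (frob : Places S → (L ≃ₐ[K] L))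
    (a b : Places S → ℂ) (β : HeightOneSpectrum (𝓞 K) → Fin M → ℂ) (T : Finset (HeightOneSpectrum (𝓞 K) × Fin M))
    (κ : Fin (M * Module.finrank ℚ K) → ℂ) (Q : ℝ) : Prop where
  /-- the Frobenius automorphisms -/
  isFrob : ∀ v, IsFrob v.1 (frob v)
  /-- the Satake parameters are nonzero -/
  ne_zero : ∀ v, a v ≠ 0 ∧ b v ≠ 0
  /-- the representations are unitary: `{a, b}` is stable under `z ↦ 1 / conj z` -/
  unitary : ∀ v, ((starRingEnd ℂ) (a v) = (a v)⁻¹ ∧ (starRingEnd ℂ) (b v) = (b v)⁻¹) ∨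
    (starRingEnd ℂ) (a v) = (b v)⁻¹
  /-- the bound of Jacquet and Shalika -/
  bound : ∀ v, ‖a v‖ < (Nm v.1 : ℝ) ^ (1 / 2 : ℝ) ∧ ‖b v‖ < (Nm v.1 : ℝ) ^ (1 / 2 : ℝ)
  /-- the same at the places of `S` -/
  ramified : ∀ v ∈ S, ∀ i, ‖β v i‖ < (Nm v : ℝ)
  /-- the removed factors -/
  removed : ∀ x ∈ T, x.1 ∈ S ∧ ‖β x.1 x.2‖ = 1
  /-- the logarithms of the other factors at `S` have nonnegative coefficients -/
  nonneg : ∀ v ∈ S, ∀ k : ℕ, ∃ c : ℝ, 0 ≤ c ∧
    ∑ i, Set.indicator {i | (v, i) ∉ T} (fun i => β v i ^ (k + 1)) i = (c : ℂ)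
  /-- the conductor -/
  one_le : 1 ≤ Q
  /-- the components at infinity are unitary -/
  conj : Multiset.map (fun j => (starRingEnd ℂ) (κ j)) Finset.univ.val = Multiset.map κ Finset.univ.val
  /-- the bound of Jacquet and Shalika at infinity -/
  re : ∀ j, -1 < (κ j).re
  /-- `L(s, ρ) L(s, Ad π × τ)` is entire: `F` is the finite part, `Ξ` the completed one -/
  entire : ∃ (F Ξ : ℂ → ℂ) (ω : ℂ), Differentiable ℂ F ∧ Differentiable ℂ Ξ ∧ ‖ω‖ = 1 ∧
    (∀ a b : ℝ, ∃ (C : ℝ) (A : ℕ), ∀ s : ℂ, a ≤ s.re → s.re ≤ b → ‖F s‖ ≤ C * (1 + |s.im|) ^ A) ∧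
    (∀ s : ℂ, 1 < s.re → F s * ∏ v ∈ S, ∏ i, (1 - β v i * ((Nm v : ℕ) : ℂ) ^ (-s)) =
      Complex.exp (∑' x : Places S × ℕ,
        (((r (frob x.1 ^ (x.2 + 1)) + t (frob x.1 ^ (x.2 + 1)) * (‖a x.1 ^ (x.2 + 1) + b x.1 ^ (x.2 + 1)‖ ^ 2 - 1)) /
          ((x.2 : ℝ) + 1) : ℝ) : ℂ) * (((Nm x.1.1 : ℕ) : ℂ) ^ (-s)) ^ (x.2 + 1))) ∧
    (∀ s : ℂ, 1 < s.re → Ξ s = F s * ((Q : ℂ) ^ s * ∏ j, Complex.Gammaℝ (s + κ j))) ∧
    ∀ s : ℂ, Ξ (1 - s) = ω * Ξ s

/-- power sums of a unitary parameter which is not tempered are large -/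
theorem temp {a b : ℂ} (h0 : a ≠ 0 ∧ b ≠ 0)
    (hu : ((starRingEnd ℂ) a = a⁻¹ ∧ (starRingEnd ℂ) b = b⁻¹) ∨ (starRingEnd ℂ) a = b⁻¹) {k : ℕ}
    (hk : ‖a ^ k + b ^ k‖ ^ 2 < 4) : ‖a‖ = 1 ∧ ‖b‖ = 1 := by
  have one : ∀ {z : ℂ}, z ≠ 0 → (starRingEnd ℂ) z = z⁻¹ → ‖z‖ = 1 := by
    intro z hz h
    have h1 : z * (starRingEnd ℂ) z = 1 := by rw [h, mul_inv_cancel₀ hz]
    rw [Complex.mul_conj, Complex.normSq_eq_norm_sq] at h1
    have h2 : ‖z‖ ^ 2 = 1 := by exact_mod_cast h1
    exact (pow_eq_one_iff_of_nonneg (norm_nonneg _) (by norm_num)).1 h2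
  rcases hu with hu | hu
  · exact ⟨one h0.1 hu.1, one h0.2 hu.2⟩
  · exfalso
    -- `b ^ k` is a positive multiple of `a ^ k`
    have hb : b = (starRingEnd ℂ) (a⁻¹) := by
      rw [map_inv₀, hu, inv_inv]
    have h1 : b ^ k = (starRingEnd ℂ) ((a ^ k)⁻¹) := by rw [hb, ← map_pow, inv_pow]
    obtain ⟨z, hz⟩ : ∃ z : ℂ, z = a ^ k := ⟨_, rfl⟩
    have hz0 : z ≠ 0 := by rw [hz]; exact pow_ne_zero _ h0.1
    rw [h1, ← hz] at hk
    have hn : (0 : ℝ) < ‖z‖ ^ 2 := by positivity
    have h2 : z + (starRingEnd ℂ) (z⁻¹) = z * (((1 + (‖z‖ ^ 2)⁻¹ : ℝ)) : ℂ) := by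
      rw [Complex.inv_def, map_mul, Complex.conj_conj, Complex.conj_ofReal, Complex.normSq_eq_norm_sq]
      push_cast
      ring
    rw [h2, norm_mul, mul_pow, Complex.norm_real, Real.norm_eq_abs, sq_abs] at hk
    have h3 : ‖z‖ ^ 2 * (1 + (‖z‖ ^ 2)⁻¹) ^ 2 = (‖z‖ ^ 2 + 1) ^ 2 / ‖z‖ ^ 2 := by
      field_simp
    rw [h3, div_lt_iff₀ hn] at hk
    nlinarith [sq_nonneg (‖z‖ ^ 2 - 1)]

/-- **The least tempered place with a condition on the Frobenius class.** -/
theorem result (K : Type) [Field K] [NumberField K] (d e : ℕ) {ε : ℝ} (hε : 0 < ε) :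
    ∃ A : ℝ, 0 < A ∧ ∀ (L : Type) [Field L] [NumberField L] [Algebra K L] [IsGalois K L]
      (D : Set (L ≃ₐ[K] L)) (r t : (L ≃ₐ[K] L) → ℝ),
      (∀ g, |r g| ≤ d ∧ |t g| ≤ e) → (∀ g ∉ D, 0 ≤ t g ∧ t g ≤ r g) → (∀ g ∈ D, 0 ≤ t g ∧ -3 * t g ≤ r g) →
      ∀ (S : Finset (HeightOneSpectrum (𝓞 K))) (frob : Places S → (L ≃ₐ[K] L)) (a b : Places S → ℂ)
        (β : HeightOneSpectrum (𝓞 K) → Fin (d + 3 * e) → ℂ)
        (T : Finset (HeightOneSpectrum (𝓞 K) × Fin (d + 3 * e)))
        (κ : Fin ((d + 3 * e) * Module.finrank ℚ K) → ℂ) (Q : ℝ),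
        CuspidalGalois r t frob a b β T κ Q → (∃ j, κ j = 0) →
        ∃ (v : Places S) (k : ℕ), 1 ≤ k ∧
          (Nm v.1 : ℝ) ^ k ≤ A * (Q ^ 2 * (∏ j, (1 + ‖κ j‖)) * ∏ x ∈ T, (Nm x.1 : ℝ)) ^ (1 + ε) ∧
          frob v ^ k ∈ D ∧ ‖a v‖ = 1 ∧ ‖b v‖ = 1 := by
  classical
  obtain ⟨A, hA0, hA⟩ := Pool.Agent.Y82.GL.gen K (d + 3 * e) ((d + 3 * e) * Module.finrank ℚ K)
    Pool.Agent.TH949.UL.den_one (B := d + 5 * e) (by positivity) hε
  refine ⟨A, hA0, fun L _ _ _ _ D r t hrt hD1 hD2 S frob a b β T κ Q h hκ => ?_⟩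
  obtain ⟨F, Ξ, ω, hF, hΞ, hω, hgr, hE, hΞF, hfe⟩ := h.entire
  obtain ⟨v, k, hk, hle, hneg⟩ := hA S
    (fun v k => r (frob v ^ k) + t (frob v ^ k) * (‖a v ^ k + b v ^ k‖ ^ 2 - 1)) β T κ Q F
    (fun v k => by
      have hq : (1 : ℝ) ≤ (Nm v.1 : ℝ) := (Pool.Agent.TH861.GL3.one_lt_qq v.1).le
      have hq0 : (0 : ℝ) < (Nm v.1 : ℝ) := by linarith
      have hq1 : (1 : ℝ) ≤ (Nm v.1 : ℝ) ^ k := one_le_pow₀ hq
      obtain ⟨h1, h2⟩ := h.bound v
      have e2 : (((Nm v.1 : ℝ) ^ (1 / 2 : ℝ)) ^ k) ^ 2 = (Nm v.1 : ℝ) ^ k := by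
        rw [pow_right_comm, ← Real.rpow_natCast (((Nm v.1 : ℝ) ^ (1 / 2 : ℝ))) 2, ← Real.rpow_mul hq0.le]
        norm_num
      have h3 : ‖a v ^ k + b v ^ k‖ ≤ 2 * ((Nm v.1 : ℝ) ^ (1 / 2 : ℝ)) ^ k := by
        refine (norm_add_le _ _).trans ?_
        rw [norm_pow, norm_pow]
        have h4 := pow_le_pow_left₀ (norm_nonneg _) h1.le k
        have h5 := pow_le_pow_left₀ (norm_nonneg _) h2.le k
        linarith
      have h4 : ‖a v ^ k + b v ^ k‖ ^ 2 ≤ 4 * (Nm v.1 : ℝ) ^ k := by
        calc _ ≤ (2 * ((Nm v.1 : ℝ) ^ (1 / 2 : ℝ)) ^ k) ^ 2 := pow_le_pow_left₀ (norm_nonneg _) h3 2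
          _ = 4 * (Nm v.1 : ℝ) ^ k := by rw [mul_pow, e2]; norm_num
      have h5 : |‖a v ^ k + b v ^ k‖ ^ 2 - 1| ≤ 5 * (Nm v.1 : ℝ) ^ k := by
        rw [abs_le]
        constructor <;> nlinarith [sq_nonneg ‖a v ^ k + b v ^ k‖]
      refine (abs_add_le _ _).trans ?_
      rw [abs_mul]
      have h6 := (hrt (frob v ^ k)).1
      have h7 := mul_le_mul (hrt (frob v ^ k)).2 h5 (abs_nonneg _) (Nat.cast_nonneg e)
      have h8 : (d : ℝ) ≤ d * (Nm v.1 : ℝ) ^ k := le_mul_of_one_le_right (Nat.cast_nonneg d) hq1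
      calc _ ≤ (d : ℝ) * (Nm v.1 : ℝ) ^ k + e * (5 * (Nm v.1 : ℝ) ^ k) := by linarith
        _ = (d + 5 * e) * (Nm v.1 : ℝ) ^ k := by ring)
    h.ramified h.removed
    (fun v hv k => by
      obtain ⟨c, hc, hc2⟩ := h.nonneg v hv k
      refine ⟨c, hc, ?_⟩
      rw [← hc2]
      refine Finset.sum_congr rfl fun j _ => ?_
      by_cases hj : (v, j) ∈ T
      · rw [if_pos hj, Set.indicator_of_notMem (by simpa using hj)]
      · rw [if_neg hj, Set.indicator_of_mem (by simpa using hj)])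
    ⟨h.one_le, h.conj, h.re, hF, hgr, Ξ, ω, hω, hΞ, fun s hs => hΞF s (by linarith), hfe⟩ hκ
    (fun s hs => by
      rw [one_mul]
      exact hE s (by linarith))
  have hsq := sq_nonneg ‖a v ^ k + b v ^ k‖
  have hmem : frob v ^ k ∈ D := by
    by_contra hcon
    obtain ⟨h1, h2⟩ := hD1 _ hcon
    have h3 : 0 ≤ t (frob v ^ k) * ‖a v ^ k + b v ^ k‖ ^ 2 := mul_nonneg h1 hsq
    nlinarith
  refine ⟨v, k, hk, hle, hmem, temp (h.ne_zero v) (h.unitary v) (k := k) ?_⟩
  by_contra hcon
  push Not at hcon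
  obtain ⟨h1, h2⟩ := hD2 _ hmem
  nlinarith [mul_nonneg h1 (sub_nonneg.2 hcon)]

end Pool.Agent.Results.MP_08cfa9_nt.TemperedChebotarev
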