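import Mathlib
import Pool.Agent.Y82.GL.Mk

/-!
# Multiplicity one at tempered places

Let `π`, `π'` be irreducible cuspidal automorphic representations of `PGL_2` over a number field `K` which are
unramified at all finite places (for `K = ℚ`: Hecke-Maass or holomorphic cusp forms of level one); they are globally
generic. Let `(α_v, α_v⁻¹)`, `(β_v, β_v⁻¹)` be their Satake parameters at `v`, `s = α_v^k + α_v^{-k}` and
`t = β_v^k + β_v^{-k}`. Suppose that `π` and `π'` are distinguished by the `L`-functions below, that is, these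
`L`-functions are entire. We show: for every `ε > 0` there is a constant `A`, depending only on `K` and `ε`, such that
for all such `π`, `π'`

1. there are `v` and `k ≥ 1` such that `π_v` and `π'_v` are both tempered, `s ≠ t`, in particular `π_v ≇ π'_v`, and
   `(N v)^k ≤ A (C(π × π')² C(Sym⁴ π) C(Sym⁴ π') C(Ad π × Ad π'))^{1+ε}`;
   more precisely `s² + s t + t² < 3` and `s² - s t + t² > 1`;
2. there are `v` and `k ≥ 1` such that `π_v` and `π'_v` are both tempered, `s t < 0`, and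
   `(N v)^k ≤ A (C(π × π')⁴ C(Ad π) C(Ad π') C(Sym⁴ π)² C(Sym⁴ π')² C(Ad π × Ad π') C(Ad π × Sym⁴ π')
     C(Sym⁴ π × Ad π'))^{1+ε}`;
3. there are `v` and `k ≥ 1` such that `π_v` and `π'_v` are both tempered, `s < 0`, and
   `(N v)^k ≤ A (C(π)⁴ C(Ad π) C(Sym⁴ π)² C(Ad π')² C(Ad π × Ad π'))^{1+ε}`.

Here `C` denotes the analytic conductor. So two inequivalent cuspidal representations can be distinguished at a small
place at which the Ramanujan conjecture holds for both; uniformly in `π` and `π'`. Known before: the effective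
multiplicity one theorems (Moreno, Brumley, Liu and Wang), where nothing is known about the temperedness at the
place found, and uniform bounds for the least (simultaneously) tempered place (`MP_8410ab_nt.LeastTemperedPlace`,
`MP_8410ab_nt.SimultaneouslyTempered`), at which the two components may agree. For fixed `π`, `π'` such places have
positive density by the theorems of Ramakrishnan and Kim and Shahidi, which give no bound for the first one.

The proof applies a uniform version of Landau's theorem (`Pool.Agent.TH949.UL`) to the products of `L`-functions with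
the conductors above: if there is no such place, then the coefficients of the logarithm are nonnegative up to `X`.
These coefficients are the values of the polynomials

  `(s² + s t + t² - 3) (s² - s t + t² - 1)`,
  `(s² + t² - 1)² + s² t² (s² + t² - 7) + 4 s t`,
  `2 s (s + 2) (s - 1)² + t² (1 + s²)`,

and the point is that these are nonnegative unless `|s|, |t| < 2` and `s ≠ t`, `s t < 0` and `s < 0`, respectively. If
`π_v` is not tempered, then `|s| ≥ 2` for all `k`.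

Notes on the data. `Unramified` contains the bound `|α_v| ≤ (N v)^{1/8}`, which is weaker than the known exponent
`7/64` (Kim and Sarnak, Blomer and Brumley). `Entire d c κ Q` says that the `L`-function of degree `d` over `K` with the
traces `c v k` of the powers of its local parameters is entire, of polynomial growth in vertical strips and has a
functional equation with the Gamma factors `Γ_ℝ(s + κ_j)` and conductor `Q²`. By Gelbart, Jacquet, Kim, Shahidi, and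
the theory of Rankin-Selberg `L`-functions of Jacquet, Piatetski-Shapiro and Shalika this is known for the
`L`-functions above if `Sym⁴ π`, `Sym⁴ π'` are cuspidal, `π ≇ π'` and `Ad π ≇ Ad π'`. `Sym⁴ π` has a factor
`Γ_ℝ(s)`, hence the condition `κ j = 0`. The bound `Re κ_j > -1` is that of Jacquet and Shalika.
-/

set_option autoImplicit false

namespace Pool.Agent.Results.MP_08cfa9_nt.TemperedMultiplicityOne

open NumberField IsDedekindDomain

/-- the finite places of `K` -/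
abbrev Place (K : Type) [Field K] [NumberField K] := HeightOneSpectrum (𝓞 K)

/-- the norm of a finite place -/
noncomputable def Nm {K : Type} [Field K] [NumberField K] (v : Place K) : ℕ := Ideal.absNorm v.asIdeal

/-- the trace of the `k`-th power of the Satake parameter `(a, a⁻¹)` -/
noncomputable def tr (a : ℂ) (k : ℕ) : ℝ := (a ^ k + (a ^ k)⁻¹).re

/-- What is used of the local components: the parameters are those of unramified unitary representations of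
`PGL_2`, with the bound `|α_v| ≤ (N v)^{1/8}`. -/
structure Unramified {K : Type} [Field K] [NumberField K] (α : Place K → ℂ) : Prop where
  /-- the Satake parameters are nonzero -/
  ne_zero : ∀ v, α v ≠ 0
  /-- the representations are unitary -/
  unitary : ∀ v, (starRingEnd ℂ) (α v) = (α v)⁻¹ ∨ (starRingEnd ℂ) (α v) = α v
  /-- a bound towards the Ramanujan conjecture -/
  bound : ∀ v, ((Nm v : ℝ) ^ (1 / 8 : ℝ))⁻¹ ≤ ‖α v‖ ∧ ‖α v‖ ≤ (Nm v : ℝ) ^ (1 / 8 : ℝ)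

/-- An entire `L`-function of degree `d` over `K` with the local power sums `c v k`, with the parameters `κ` of the
Gamma factors and conductor `Q²`: `F` is the `L`-function and `Ξ` the completed one. -/
structure Entire {K : Type} [Field K] [NumberField K] (d : ℕ) (c : Place K → ℕ → ℝ)
    (κ : Fin (d * Module.finrank ℚ K) → ℂ) (Q : ℝ) : Prop where
  /-- the conductor -/
  one_le : 1 ≤ Q
  /-- the components at infinity are unitary -/
  conj : Multiset.map (fun j => (starRingEnd ℂ) (κ j)) Finset.univ.val = Multiset.map κ Finset.univ.val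
  /-- the bound of Jacquet and Shalika at infinity -/
  re : ∀ j, -1 < (κ j).re
  /-- the analytic properties -/
  entire : ∃ (F Ξ : ℂ → ℂ) (ω : ℂ), Differentiable ℂ F ∧ Differentiable ℂ Ξ ∧ ‖ω‖ = 1 ∧
    (∀ a b : ℝ, ∃ (C : ℝ) (A : ℕ), ∀ s : ℂ, a ≤ s.re → s.re ≤ b → ‖F s‖ ≤ C * (1 + |s.im|) ^ A) ∧
    (∀ s : ℂ, 1 < s.re → F s = Complex.exp (∑' x : Place K × ℕ,
      ((c x.1 (x.2 + 1) / ((x.2 : ℝ) + 1) : ℝ) : ℂ) * (((Nm x.1 : ℕ) : ℂ) ^ (-s)) ^ (x.2 + 1))) ∧
    (∀ s : ℂ, 1 < s.re → Ξ s = F s * ((Q : ℂ) ^ s * ∏ j, Complex.Gammaℝ (s + κ j))) ∧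
    ∀ s : ℂ, Ξ (1 - s) = ω * Ξ s

/-- the analytic conductor -/
noncomputable def cond {N : ℕ} (κ : Fin N → ℂ) (Q : ℝ) : ℝ := Q ^ 2 * ∏ j, (1 + ‖κ j‖)

/-- the trace of the `k`-th power of the parameter of `Ad π` -/
noncomputable def ad (a : ℂ) (k : ℕ) : ℝ := tr a k ^ 2 - 1

/-- the trace of the `k`-th power of the parameter of `Sym⁴ π` -/
noncomputable def sym4 (a : ℂ) (k : ℕ) : ℝ := tr a k ^ 4 - 3 * tr a k ^ 2 + 1

/-- **Multiplicity one at tempered places.** -/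
theorem result (K : Type) [Field K] [NumberField K] {ε : ℝ} (hε : 0 < ε) :
    ∃ A : ℝ, 0 < A ∧ ∀ α β : Place K → ℂ, Unramified α → Unramified β →
      ∀ (κ₄ : Fin (5 * Module.finrank ℚ K) → ℂ) (Q₄ : ℝ) (κ₂₂ : Fin (9 * Module.finrank ℚ K) → ℂ) (Q₂₂ : ℝ),
      Entire 5 (fun v k => sym4 (α v) k) κ₄ Q₄ → (∃ j, κ₄ j = 0) →
      Entire 9 (fun v k => ad (α v) k * ad (β v) k) κ₂₂ Q₂₂ →
      (∀ (κ₄' : Fin (5 * Module.finrank ℚ K) → ℂ) (Q₄' : ℝ) (κ₁₁ : Fin (4 * Module.finrank ℚ K) → ℂ) (Q₁₁ : ℝ),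
        Entire 5 (fun v k => sym4 (β v) k) κ₄' Q₄' →
        Entire 4 (fun v k => tr (α v) k * tr (β v) k) κ₁₁ Q₁₁ →
        (∃ (v : Place K) (k : ℕ), 1 ≤ k ∧
          (Nm v : ℝ) ^ k ≤ A * (cond κ₁₁ Q₁₁ ^ 2 * cond κ₄ Q₄ * cond κ₄' Q₄' * cond κ₂₂ Q₂₂) ^ (1 + ε) ∧
          ‖α v‖ = 1 ∧ ‖β v‖ = 1 ∧ tr (α v) k ≠ tr (β v) k ∧
          tr (α v) k ^ 2 + tr (α v) k * tr (β v) k + tr (β v) k ^ 2 < 3 ∧
          1 < tr (α v) k ^ 2 - tr (α v) k * tr (β v) k + tr (β v) k ^ 2) ∧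
        (∀ (κ₂ κ₂' : Fin (3 * Module.finrank ℚ K) → ℂ) (Q₂ Q₂' : ℝ)
          (κ₂₄ κ₄₂ : Fin (15 * Module.finrank ℚ K) → ℂ) (Q₂₄ Q₄₂ : ℝ),
          Entire 3 (fun v k => ad (α v) k) κ₂ Q₂ → Entire 3 (fun v k => ad (β v) k) κ₂' Q₂' →
          Entire 15 (fun v k => ad (α v) k * sym4 (β v) k) κ₂₄ Q₂₄ →
          Entire 15 (fun v k => ad (β v) k * sym4 (α v) k) κ₄₂ Q₄₂ →
          ∃ (v : Place K) (k : ℕ), 1 ≤ k ∧
            (Nm v : ℝ) ^ k ≤ A * (cond κ₁₁ Q₁₁ ^ 4 * cond κ₂ Q₂ * cond κ₂' Q₂' * cond κ₄ Q₄ ^ 2 *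
              cond κ₄' Q₄' ^ 2 * cond κ₂₂ Q₂₂ * cond κ₂₄ Q₂₄ * cond κ₄₂ Q₄₂) ^ (1 + ε) ∧
            ‖α v‖ = 1 ∧ ‖β v‖ = 1 ∧ tr (α v) k * tr (β v) k < 0)) ∧
      (∀ (κ₁ : Fin (2 * Module.finrank ℚ K) → ℂ) (κ₂ κ₂' : Fin (3 * Module.finrank ℚ K) → ℂ) (Q₁ Q₂ Q₂' : ℝ),
        Entire 2 (fun v k => tr (α v) k) κ₁ Q₁ →
        Entire 3 (fun v k => ad (α v) k) κ₂ Q₂ → Entire 3 (fun v k => ad (β v) k) κ₂' Q₂' →
        ∃ (v : Place K) (k : ℕ), 1 ≤ k ∧
          (Nm v : ℝ) ^ k ≤ A * (cond κ₁ Q₁ ^ 4 * cond κ₂ Q₂ * cond κ₄ Q₄ ^ 2 * cond κ₂' Q₂' ^ 2 *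
            cond κ₂₂ Q₂₂) ^ (1 + ε) ∧
          ‖α v‖ = 1 ∧ ‖β v‖ = 1 ∧ tr (α v) k < 0) := by
  have hB : (0 : ℝ) ≤ 1000 := by norm_num
  set f := Module.finrank ℚ K with hf
  obtain ⟨A₁, hA₁0, hA₁⟩ := Pool.Agent.Y82.GL.land K (2 * (4 * f) + 5 * f + 5 * f + 9 * f)
    (B := (2 : ℕ) * 1000 + 1000 + 1000 + 1000) (by norm_num) hε
  obtain ⟨A₂, hA₂0, hA₂⟩ := Pool.Agent.Y82.GL.land K
    (4 * (4 * f) + 3 * f + 3 * f + 2 * (5 * f) + 2 * (5 * f) + 9 * f + 15 * f + 15 * f)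
    (B := (4 : ℕ) * 1000 + 1000 + 1000 + (2 : ℕ) * 1000 + (2 : ℕ) * 1000 + 1000 + 1000 + 1000) (by norm_num) hε
  obtain ⟨A₃, hA₃0, hA₃⟩ := Pool.Agent.Y82.GL.land K (4 * (2 * f) + 3 * f + 2 * (5 * f) + 2 * (3 * f) + 9 * f)
    (B := (4 : ℕ) * 1000 + 1000 + (2 : ℕ) * 1000 + (2 : ℕ) * 1000 + 1000) (by norm_num) hε
  have good : ∀ {d : ℕ} {c : Place K → ℕ → ℝ} {κ : Fin (d * f) → ℂ} {Q : ℝ}, Entire d c κ Q →
      (∀ v k, |c v k| ≤ 1000 * (Nm v : ℝ) ^ k) →
      Pool.Agent.Y82.GL.Good (d * f) 1000 (cond κ Q)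
        (fun x : Pool.Agent.TH949.UL.PV K => c x.1 (x.2 + 1) / ((x.2 : ℝ) + 1)) (∃ j, κ j = 0) :=
    fun h hc => Pool.Agent.Y82.GL.good_of hB hc h.one_le h.conj h.re h.entire
  have pos : ∀ {N : ℕ} {B R : ℝ} {u : Pool.Agent.TH949.UL.PV K → ℝ} {Z : Prop},
      Pool.Agent.Y82.GL.Good (K := K) N B R u Z → 0 ≤ R := by
    intro N B R u Z h
    obtain ⟨κ, Q, G, -, -, hR, -⟩ := h.ex
    rw [hR]
    have : 0 ≤ Pool.Agent.TH949.LT.PK κ := by
      have := Pool.Agent.TH949.LT.one_le_PK κ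
      linarith
    positivity
  have le : ∀ {A R : ℝ}, A ≤ A₁ + A₂ + A₃ → 0 ≤ R → A * R ^ (1 + ε) ≤ (A₁ + A₂ + A₃) * R ^ (1 + ε) :=
    fun h hR => mul_le_mul_of_nonneg_right h (Real.rpow_nonneg hR _)
  refine ⟨A₁ + A₂ + A₃, by positivity, fun α β hα hβ κ₄ Q₄ κ₂₂ Q₂₂ h4 hz h22 => ?_⟩
  have bd := Pool.Agent.Y82.GL.all_le (a := α) (b := β) hα.bound hβ.bound
  have bd' := Pool.Agent.Y82.GL.all_le (a := β) (b := α) hβ.bound hα.bound
  have g4 := good h4 fun v k => (bd v k).2.2.2.1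
  have g22 := good h22 fun v k => (bd v k).2.2.2.2.2.1
  refine ⟨fun κ₄' Q₄' κ₁₁ Q₁₁ h4' h11 => ⟨?_, fun κ₂ κ₂' Q₂ Q₂' κ₂₄ κ₄₂ Q₂₄ Q₄₂ h2 h2' h24 h42 => ?_⟩,
    fun κ₁ κ₂ κ₂' Q₁ Q₂ Q₂' h1 h2 h2' => ?_⟩
  · have g4' := good h4' fun v k => (bd' v k).2.2.2.1
    have g11 := good h11 fun v k => (bd v k).2.2.2.2.1
    have g := ((((g11.pow 2).mul g4).mul g4').mul g22).imp (Z' := True) fun _ => Or.inl (Or.inl (Or.inr hz))
    obtain ⟨⟨v, k⟩, hx, hle⟩ := hA₁ _ _ g
    have hk : (0 : ℝ) < (k : ℝ) + 1 := by positivity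
    simp only at hx hle
    simp only [mul_div_assoc', ← add_div] at hx
    rw [div_lt_iff₀ hk, zero_mul] at hx
    push_cast at hx
    have h5 : |tr (α v) (k + 1)| < 2 ∧ |tr (β v) (k + 1)| < 2 ∧
        tr (α v) (k + 1) ^ 2 + tr (α v) (k + 1) * tr (β v) (k + 1) + tr (β v) (k + 1) ^ 2 < 3 ∧
        1 < tr (α v) (k + 1) ^ 2 - tr (α v) (k + 1) * tr (β v) (k + 1) + tr (β v) (k + 1) ^ 2 :=
      Pool.Agent.Y82.GL.poly_diff hx
    refine ⟨v, k + 1, by omega, hle.trans (le (by linarith) (pos g)),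
      Pool.Agent.Y82.GL.temp (hα.ne_zero v) (hα.unitary v) (k := k + 1) h5.1,
      Pool.Agent.Y82.GL.temp (hβ.ne_zero v) (hβ.unitary v) (k := k + 1) h5.2.1, ?_, h5.2.2.1, h5.2.2.2⟩
    intro h6
    have h7 := h5.2.2.1
    have h8 := h5.2.2.2
    rw [h6] at h7 h8
    nlinarith
  · have g4' := good h4' fun v k => (bd' v k).2.2.2.1
    have g11 := good h11 fun v k => (bd v k).2.2.2.2.1
    have g2 := good h2 fun v k => (bd v k).2.1
    have g2' := good h2' fun v k => (bd' v k).2.1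
    have g24 := good h24 fun v k => (bd v k).2.2.2.2.2.2.2
    have g42 := good h42 fun v k => (bd' v k).2.2.2.2.2.2.2
    have g := ((((((((g11.pow 4).mul g2).mul g2').mul (g4.pow 2)).mul (g4'.pow 2)).mul g22).mul g24).mul g42).imp
      (Z' := True) fun _ => Or.inl (Or.inl (Or.inl (Or.inl (Or.inr ⟨by norm_num, hz⟩))))
    obtain ⟨⟨v, k⟩, hx, hle⟩ := hA₂ _ _ g
    have hk : (0 : ℝ) < (k : ℝ) + 1 := by positivity
    simp only at hx hle
    simp only [mul_div_assoc', ← add_div] at hx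
    rw [div_lt_iff₀ hk, zero_mul] at hx
    push_cast at hx
    have h5 : |tr (α v) (k + 1)| < 2 ∧ |tr (β v) (k + 1)| < 2 ∧ tr (α v) (k + 1) * tr (β v) (k + 1) < 0 :=
      Pool.Agent.Y82.GL.poly_opp hx
    exact ⟨v, k + 1, by omega, hle.trans (le (by linarith) (pos g)),
      Pool.Agent.Y82.GL.temp (hα.ne_zero v) (hα.unitary v) (k := k + 1) h5.1,
      Pool.Agent.Y82.GL.temp (hβ.ne_zero v) (hβ.unitary v) (k := k + 1) h5.2.1, h5.2.2⟩
  · have g1 := good h1 fun v k => (bd v k).1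
    have g2 := good h2 fun v k => (bd v k).2.1
    have g2' := good h2' fun v k => (bd' v k).2.1
    have g := (((((g1.pow 4).mul g2).mul (g4.pow 2)).mul (g2'.pow 2)).mul g22).imp
      (Z' := True) fun _ => Or.inl (Or.inl (Or.inr ⟨by norm_num, hz⟩))
    obtain ⟨⟨v, k⟩, hx, hle⟩ := hA₃ _ _ g
    have hk : (0 : ℝ) < (k : ℝ) + 1 := by positivity
    simp only at hx hle
    simp only [mul_div_assoc', ← add_div] at hx
    rw [div_lt_iff₀ hk, zero_mul] at hx
    push_cast at hx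
    have h5 : |tr (α v) (k + 1)| < 2 ∧ |tr (β v) (k + 1)| < 2 ∧ tr (α v) (k + 1) < 0 :=
      Pool.Agent.Y82.GL.poly_first hx
    exact ⟨v, k + 1, by omega, hle.trans (le (by linarith) (pos g)),
      Pool.Agent.Y82.GL.temp (hα.ne_zero v) (hα.unitary v) (k := k + 1) h5.1,
      Pool.Agent.Y82.GL.temp (hβ.ne_zero v) (hβ.unitary v) (k := k + 1) h5.2.1, h5.2.2⟩

end Pool.Agent.Results.MP_08cfa9_nt.TemperedMultiplicityOne
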